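import Pool.Agent.TH152.BB.Cur

/-!
MP_5b1cbc_ag, Q1: general type and pseudo-geometric hyperbolicity, for abelian covers of projective
space.
-/

set_option autoImplicit false

namespace Pool.Agent.Results.MP_5b1cbc_ag.AbelianCovers

open FF Pool.Agent.W602.Cov Pool.Agent.W602.Cov.Cover Pool.Agent.TH152.CV Pool.Agent.TH152.BB
open Pool.Agent.W602.GT

/-- For all `n ≥ 1` and `q` there is a constant `R` with the following property. Let `X` be an
irreducible abelian cover of projective `n`-space, with the function field `K` and the equations
`y k ^ m k = ∏ i, ℓ i (x) ^ e k i` in a weighted projective space, where `ℓ 1, …, ℓ q` are any linear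
forms. Suppose that the multiplicative group acts freely on the cone over `X`, and that the
multiplicities of the cover over the arrangement are at least `m`, where `n (n + 1) (n + 2) < 2 m`.
The following are equivalent:
`X` is of general type;
`X` is pseudo-geometrically hyperbolic: for some proper closed subset `Δ` of `X`, all smooth
projective pointed curves `(C, c)` and all points `v` of `X` outside `Δ` there are only finitely many
pointed morphisms from `(C, c)` to `(X, v)`;
for some proper closed subset `Δ` of `X` this holds for `C` the projective line;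
for some `Δ`, the morphisms from curves to `X` with an image not contained in `Δ` have degree at most
`R * max (2 * g - 2) 0`;
for some `Δ`, all closed subvarieties of `X` of positive dimension not contained in `Δ` are of general
type;
for some `Δ`, all nonconstant morphisms from the affine line to `X` have image in `Δ`;
the arrangement of the hyperplanes `ℓ i = 0` is not reducible. -/
theorem result (n q : ℕ) (hn : 1 ≤ n) : ∃ R : ℕ, 0 < R ∧ ∀ {r : ℕ} {X : Cover n q r} {m : ℕ},
    n * (n + 1) * (n + 2) < 2 * m → Pool.Agent.TH152.AC.Mult X m → X.Free →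
    ∀ {K : Type} [Field K] [Algebra ℂ K] {x : Fin (n + 1) → K} {y : Fin r → K},
    X.FunctionField K x y →
      [GeneralType ℂ K n, Pseudo X (PointedMod X), Pseudo X (PointedLine X),
        Pseudo X (LinMod X R), Pseudo X (SubMod X), Pseudo X (RatMod X), ¬ Reducible X.ℓ].TFAE := by
  obtain ⟨R, hR, h⟩ := gen_tfae_mult cur_all n q hn
  refine ⟨R, hR, fun {r X m} hm hM hF {K} _ _ {x y} hK => ?_⟩
  have ht := h R le_rfl hm hM hF hK
  tfae_have 1 ↔ 2 := ht.out 0 3
  tfae_have 1 ↔ 3 := ht.out 0 4
  tfae_have 1 ↔ 4 := ht.out 0 6
  tfae_have 1 ↔ 5 := ht.out 0 7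
  tfae_have 1 ↔ 6 := ht.out 0 9
  tfae_have 1 ↔ 7 := ht.out 0 10
  tfae_finish

end Pool.Agent.Results.MP_5b1cbc_ag.AbelianCovers
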