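import Pool.Agent.TH152.BB.Mod

/-!
MP_5b1cbc_ag, Q1: the exceptional sets for pointed curves in abelian covers of projective space.
-/

set_option autoImplicit false

namespace Pool.Agent.Results.MP_5b1cbc_ag.CoverExceptionalSets

open FF Pool.Agent.W602.Cov Pool.Agent.W602.Cov.Cover Pool.Agent.TH152.CV Pool.Agent.TH152.BB
open Pool.Agent.W602.GT

/-- Let `X` be an abelian cover of projective `n`-space, with the equations
`y k ^ m k = ∏ i, ℓ i (x) ^ e k i` in a weighted projective space, where `ℓ 1, …, ℓ q` are any linear
forms and `n (n + 1) (n + 2) ∑ i, e k i < 2 m k` for all `k`, such that the multiplicative group acts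
freely on the cone over `X`. For a closed subset `Δ` of `X` the following are equivalent:
for all smooth projective pointed curves `(C, c)` and all points `v` of `X` outside `Δ` there are only
finitely many pointed morphisms from `(C, c)` to `(X, v)`;
the same for `C` the projective line;
all closed subvarieties of `X` of positive dimension not contained in `Δ` are of general type;
all nonconstant morphisms from the affine line to `X` have image in `Δ`;
all split points of `X` are in `Δ`. -/
theorem result {n q r : ℕ} {X : Cover n q r} (hB : Big X) (hF : X.Free)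
    (Δ : Set ((Fin (n + 1) → ℂ) × (Fin r → ℂ))) (hΔ : ClosedIn X Δ) :
    [PointedMod X Δ, PointedLine X Δ, SubMod X Δ, RatMod X Δ, ∀ v, X.Split v → v ∈ Δ].TFAE := by
  obtain ⟨R, hR, h⟩ := mod_tfae n q
  have ht := h hB hF Δ hΔ
  tfae_have 1 ↔ 2 := ht.out 2 3
  tfae_have 1 ↔ 3 := ht.out 2 6
  tfae_have 1 ↔ 4 := ht.out 2 8
  tfae_have 1 ↔ 5 := ht.out 2 0
  tfae_finish

end Pool.Agent.Results.MP_5b1cbc_ag.CoverExceptionalSets
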