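import Pool.Agent.TH145.GF.Main
import Pool.Agent.TH145.GE.CurveLin

/-!
MP_5b1cbc_ag, Q1: generic complete intersections in an arbitrary projective variety are of general
type, and the degrees of the curves on them are bounded by the genus (hence they are
pseudo-geometrically hyperbolic, by known implications).

Let `K` be an algebraically closed field of characteristic `0`, and let `k` be a field contained in
`K`, with algebraic closure `k'` in `K`. Let `V` be a closed subset of projective space of dimension
`n`, defined over `k'`, of dimension at most `m`. For `a` in a finite set `A`, let `F_a` be a generic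
member of a linear system over `k'` of forms of degree `d_a`, spanned by the forms `P_{a,j}`: the
ratios of the coefficients `t_{a,j}` of `F_a` to one of them are, for all `a` together,
algebraically independent over `k`. Let `Z` be a set of indices `c` such that each of the linear
systems contains the monomials `x_c ^ (d_a - e) x_i ^ e` for all `i` and `e`.

Let `X` be the set of the points of `V` with `F_a = 0` for all `a`, and let `E` be the linear
subspace `x_c = 0` (`c` in `Z`). Then:

* if `Y` is a subvariety of `X` of dimension `w ≥ 1` (for instance a component of `X`), not contained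
  in `E`, and `2 m + 2 ≤ ∑ (d_a + 1) + w`, then `Y` is of general type;
* every non-constant morphism `f` from a smooth projective curve of genus `g` over `K` to `X`, with
  image not contained in `E`, satisfies `(∑ (d_a + 1) - 2 m) deg f ≤ 2 g - 2`.

In the first part, `L` is the function field of `Y`, or a finite extension of it, and `x` is the
generic point of `Y`, in homogeneous coordinates. In the second part, the curve is given by its
function field `L`, of transcendence degree one over `K`, and `x` are homogeneous coordinates of the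
morphism. For a point `Q` of the curve, `pord Q x` is the minimum of the orders at `Q` of the nonzero
coordinates; `pht K x` is minus the sum of these numbers, the degree of `f`. The number `canDeg K L`
is `2 g - 2`: it is minus the sum over the points `Q` of the orders of `δ (t_Q)`, where `t_Q` is a
uniformizer at `Q`, for any nonzero derivation `δ` of `L` over `K`.
-/

set_option autoImplicit false

namespace Pool.Agent.Results.MP_5b1cbc_ag.GenericIntersections

open MvPolynomial FF Pool.Agent.W602.GT Pool.Agent.W603.LV Pool.Agent.W603.PV Pool.Agent.TH145.MG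

theorem result {k K : Type} [Field k] [Field K] [IsAlgClosed K] [CharZero K] [Algebra k K]
    {n m : ℕ}
    -- a closed subset of projective space, of dimension at most `m`
    (V : Set (MvPolynomial (Fin (n + 1)) (algebraicClosure k K)))
    (hVh : ∀ f ∈ V, ∃ e, f.IsHomogeneous e) (hV : DimLE (algebraicClosure k K) V m)
    -- linear systems of forms of degrees `d a`
    {A : Type} [Fintype A] (d : A → ℕ) {J : A → Type} [∀ a, Fintype (J a)]
    (P : ∀ a, J a → MvPolynomial (Fin (n + 1)) (algebraicClosure k K))
    (hP : ∀ a j, (P a j).IsHomogeneous (d a))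
    -- the coefficients; their ratios are algebraically independent over `k`
    (t : ∀ a, J a → K) (j0 : ∀ a, J a) (h0 : ∀ a, t a (j0 a) ≠ 0)
    (hgen : AlgebraicIndependent k fun p : (a : A) × {j : J a // j ≠ j0 a} =>
      t p.1 p.2.1 / t p.1 (j0 p.1))
    -- the forms
    (F : A → MvPolynomial (Fin (n + 1)) K)
    (hF : ∀ a, F a = ∑ j, MvPolynomial.C (t a j) * map (algebraMap (algebraicClosure k K) K) (P a j))
    -- the linear systems contain monomials in two variables
    (Z : Set (Fin (n + 1)))
    (hZ : ∀ c ∈ Z, ∀ (a : A) (i : Fin (n + 1)) (e : ℕ), e ≤ d a →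
      ∃ j, P a j = X c ^ (d a - e) * X i ^ e) :
    -- general type
    (∀ (L : Type) [Field L] [Algebra K L] (w : ℕ) (x : Fin (n + 1) → L), 0 < w →
      Algebra.trdeg K L = w → (∃ c ∈ Z, x c ≠ 0) → Algebra.IsAlgebraic (coords K x) L →
      (∀ f ∈ V, aeval x (map (algebraMap (algebraicClosure k K) K) f) = 0) →
      (∀ a, aeval x (F a) = 0) → 2 * m + 2 ≤ ∑ a, (d a + 1) + w → GeneralType K L w) ∧
    -- the degrees of curves
    (∀ (L : Type) [Field L] [Algebra K L] [IsFF K L] (x : Fin (n + 1) → L),
      (∃ c ∈ Z, x c ≠ 0) → (∃ i j, x j ≠ 0 ∧ x i / x j ∉ Set.range (algebraMap K L)) →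
      (∀ f ∈ V, aeval x (map (algebraMap (algebraicClosure k K) K) f) = 0) →
      (∀ a, aeval x (F a) = 0) →
      (∀ δ : Derivation K L L, δ ≠ 0 → canDeg K L = - ∑ᶠ Q : Place K L, Q.ord (δ Q.surj.choose)) ∧
      (((∑ a, (d a + 1) : ℕ) : ℤ) - 2 * m) * pht K x ≤ canDeg K L) := by
  classical
  have hind : AlgebraicIndependent (algebraicClosure k K)
      fun p : (a : A) × {j : J a // j ≠ j0 a} => t p.1 p.2.1 / t p.1 (j0 p.1) :=
    hgen.algebraicClosure
  have hSt : ∀ c ∈ Z, ∀ a, ∀ I ∈ Pool.Agent.TH145.GD.St c (d a), ∃ j, P a j = monomial I 1 := by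
    intro c hc a I hI
    obtain ⟨i, e, he, rfl⟩ := hI
    obtain ⟨j, hj⟩ := hZ c hc a i e he
    refine ⟨j, ?_⟩
    rw [hj, Pool.Agent.TH145.GD.sM, X_pow_eq_monomial, X_pow_eq_monomial, monomial_mul, one_mul]
  have hsum : ∑ a, (d a + 1) = ∑ a, d a + (Finset.univ : Finset A).card := by
    rw [Finset.sum_add_distrib, Finset.card_eq_sum_ones]
  constructor
  · intro L _ _ w x hw htr hxZ hxL hxV hxF hd
    obtain ⟨c, hcZ, hc⟩ := hxZ
    have h1 := Pool.Agent.TH145.GF.log_general V hVh hV P hP t j0 h0 hind c (hSt c hcZ) hF
      Finset.univ hw (by rw [hsum] at hd; omega) htr x hc hxL hxV (fun a _ => hxF a)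
      (fun a ha => absurd (Finset.mem_univ a) ha)
    refine general_of_log ?_
    have h2 : (fun Q : Place K L => ∃ a, a ∉ (Finset.univ : Finset A) ∧
        d a * pord Q x < Q.ord (aeval x (F a))) = fun _ => False := by
      funext Q
      simp
    rwa [h2] at h1
  · intro L _ _ _ x hxZ hx hxV hxF
    refine ⟨fun δ hδ => canDeg_eq hδ, ?_⟩
    obtain ⟨c, hcZ, hc⟩ := hxZ
    have h1 := Pool.Agent.TH145.GE.curve_lin V hVh hV P hP t j0 h0 hind c (hSt c hcZ) hF
      Finset.univ x hc hx hxV (fun a _ => hxF a) (fun a ha => absurd (Finset.mem_univ a) ha)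
    have h2 : {Q : Place K L | ∃ a, a ∉ (Finset.univ : Finset A) ∧
        d a * pord Q x < Q.ord (aeval x (F a))} = ∅ := by
      ext Q
      simp
    rw [h2, Set.ncard_empty, Nat.cast_zero, add_zero, ← Nat.cast_add, ← hsum] at h1
    exact h1

end Pool.Agent.Results.MP_5b1cbc_ag.GenericIntersections
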