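import Mathlib
import Pool.Agent.TH710.NR.Fin

/-!
MP_5b1cbc_ag, Q1: general type and pseudo-geometric hyperbolicity for projective varieties given by
nested sums of few high powers of linear forms.
-/

set_option autoImplicit false

namespace Pool.Agent.Results.MP_5b1cbc_ag.NestedPointed

open FF MvPolynomial Pool.Agent.W602.RG Pool.Agent.W602.GT Pool.Agent.TH710.NU

/-- Let `V` be an irreducible component of a projective variety over an algebraically closed field
of characteristic zero, given by finitely many nested sums of few high powers of linear forms. The
following are equivalent: outside a proper closed subset of `V`, for every pointed curve there are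
only finitely many morphisms to `V` with a given value at the marked point; the same for the
projective line only; the lines in `V` do not meet `V` outside some proper closed subset; outside a
proper closed subset, the degrees of the maps from curves to `V` are at most `B max (2 g - 2, 0)`.
These hold if `V` is of general type. If the exponents are large, they hold if and only if `V` is
of general type. -/
theorem result {k : Type} [Field k] [IsAlgClosed k] [CharZero k] {n : ℕ} {ι : Type} [Finite ι]
    {F : ι → MvPolynomial (Fin (n + 1)) k} (hF : ∀ i, Tower (F i))
    {K : Type} [Field K] [Algebra k K] {w : ℕ} {y : Fin (n + 1) → K}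
    (hy : SubVar F K w y) (hcomp : IsComponent F y) :
    [PseudoGeomHyp k y,
      ∃ G : MvPolynomial (Fin (n + 1)) k, IsForm G ∧ val y G ≠ 0 ∧
        ∀ (c : Place k (RatFunc k)), ∀ x ∈ VarPts k y, val x G ≠ 0 → (PointedMaps y c x).Finite,
      FewLines k y, LinBound y (Empty.elim : Empty → MvPolynomial (Fin (n + 1)) k)].TFAE ∧
    (GeneralType k K w → PseudoGeomHyp k y) ∧
    ∀ s N h : ℕ, (∀ i, Pool.Agent.TH710.ND.IsNested s N h (F i)) →
      (n + 1) * ((h + 1) * (2 * s + 1) ^ 5) ≤ N → (GeneralType k K w ↔ PseudoGeomHyp k y) :=
  ⟨Pool.Agent.TH710.NR.pointed_tfae hF hy hcomp,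
    Pool.Agent.TH710.NR.pointed_of_general hF hy hcomp, fun _ _ _ hF' hN =>
    ⟨Pool.Agent.TH710.NR.pointed_of_general hF hy hcomp,
      Pool.Agent.TH710.NR.general_of_pointed hF hF' hN hy hcomp⟩⟩

end Pool.Agent.Results.MP_5b1cbc_ag.NestedPointed
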